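import Pool.Agent.H.MP_1dea36_gt.G

namespace Pool.Agent.Results.MP_1dea36_gt.No
open Pool.Agent.H.MP_1dea36_gt

theorem result : ∃ P Q : Fin 8 → Fin 4 → ℝ, SimplicialPolytope P ∧ SimplicialPolytope Q ∧
    (∀ (k : Type) [Field k],
      (∀ i j, kbetti k (xs k (Face P)) i j = kbetti k (xs k (Face Q)) i j) ∧
      KIso k (xs k (Face P)) (xs k (Face Q))) ∧
    buch (Face P) ≠ buch (Face Q) ∧ buchR (Face P) ≠ buchR (Face Q) := by
  refine ⟨cV VA, cV VB, polyA, polyB, ?_⟩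
  rw [faceA, faceB]
  refine ⟨fun k _ => ⟨fun i j => ?_, isoAB k⟩, buch_ne⟩
  obtain ⟨φ, -⟩ := isoAB k
  exact (φ i j).finrank_eq

end Pool.Agent.Results.MP_1dea36_gt.No
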